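import Mathlib

set_option autoImplicit false
set_option maxHeartbeats 400000

namespace Pool.Agent.Results.MP_216313_al.AntiTorus

open Polynomial

/-- The relators `a_i x_j a_{i-j}⁻¹ x_{i+j}⁻¹`, with `a_i = inl i` and `x_j = inr j`. -/
def rels (X : Type) [AddCommGroup X] : Set (FreeGroup (X ⊕ X)) :=
  Set.range fun p : X × X => FreeGroup.of (Sum.inl p.1) * FreeGroup.of (Sum.inr p.2) *
    (FreeGroup.of (Sum.inl (p.1 - p.2)))⁻¹ * (FreeGroup.of (Sum.inr (p.1 + p.2)))⁻¹

def aff {K : Type} [CommRing K] (c : K) : Kˣ →* Equiv.Perm K where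
  toFun u := ⟨fun b => u * (b - c) + c, fun b => u⁻¹.1 * (b - c) + c, fun b => by simp,
    fun b => by simp⟩
  map_one' := by ext; simp
  map_mul' u v := by ext; simp [mul_assoc]

theorem aff_apply {K : Type} [CommRing K] (c : K) (u : Kˣ) (b : K) :
    aff c u b = u * (b - c) + c := rfl

theorem nzd {R : Type} [CommRing R] (f : R[X]) (r : R) (h : IsUnit (f.eval r)) :
    f ∈ nonZeroDivisors R[X] := by
  by_contra k
  obtain ⟨a, ha, e⟩ := Polynomial.notMem_nonZeroDivisors_iff.1 k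
  have := congrArg (eval r) e
  rw [eval_smul, smul_eq_mul, eval_zero, h.mul_left_eq_zero] at this
  exact ha this

theorem unit_sub {K : Type} [CommRing K] (u : Kˣ) (h : ∀ n : ℕ, n ≠ 0 → IsUnit (u.1 ^ n - 1))
    (p : ℤ) (hp : p ≠ 0) : IsUnit ((u ^ p).1 - 1) := by
  obtain ⟨n, rfl | rfl⟩ := Int.eq_nat_or_neg p
  · simpa using h n (by omega)
  · have : (u ^ (-(n : ℤ))).1 - 1 = -(u ^ (-(n : ℤ))).1 * (u.1 ^ n - 1) := by
      rw [mul_sub, neg_mul, ← Units.val_pow_eq_pow_val, ← Units.val_mul]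
      simp
      ring
    rw [this]
    exact (Units.isUnit _).neg.mul (h n (by omega))

theorem emb (X : Type) [AddCommGroup X] :
    ∃ (R : Type) (_ : CommRing R) (e : X →+ R), Function.Injective e := by
  let _ : Module ℤᵐᵒᵖ X := Module.compHom _ ((RingHom.id ℤ).fromOpposite mul_comm)
  have : IsCentralScalar ℤ X := ⟨fun _ _ => rfl⟩
  exact ⟨TrivSqZeroExt ℤ X, inferInstance, (TrivSqZeroExt.inrHom ℤ X).toAddMonoidHom,
    TrivSqZeroExt.inr_injective⟩

theorem result (X : Type) [AddCommGroup X] (i j : X) (hij : (i, j) ≠ (0, 0)) (p q : ℤ)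
    (hp : p ≠ 0) (hq : q ≠ 0) :
    (PresentedGroup.of (Sum.inl i) : PresentedGroup (rels X)) ^ p *
        (PresentedGroup.of (Sum.inr j) : PresentedGroup (rels X)) ^ q ≠
      (PresentedGroup.of (Sum.inr j) : PresentedGroup (rels X)) ^ q *
        (PresentedGroup.of (Sum.inl i) : PresentedGroup (rels X)) ^ p := by
  obtain ⟨R, _, e, he⟩ := emb X
  let K := FractionRing R[X]
  let φ := algebraMap R[X] K
  have hu : ∀ (f : R[X]) (r : R), IsUnit (f.eval r) → IsUnit (φ f) := fun f r h =>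
    IsLocalization.map_units K ⟨f, nzd f r h⟩
  obtain ⟨z, hz⟩ := hu Polynomial.X 1 (by simp)
  obtain ⟨s, hs⟩ := hu (1 - Polynomial.X) 0 (by simp)
  obtain ⟨t, ht⟩ := hu (1 - 2 * Polynomial.X) 0 (by simp)
  rw [map_sub, map_one, ← hz] at hs
  rw [map_sub, map_one, map_mul, ← hz, map_ofNat] at ht
  have z1 := z.mul_inv
  have s1 := s.mul_inv
  let c : X →+ K := (φ.comp C).toAddMonoidHom.comp e
  let f : X ⊕ X → Equiv.Perm K := Sum.elim (fun a => aff (c a * z⁻¹.1) (t * s⁻¹))
    fun a => aff (c a * s⁻¹.1) z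
  have hf : ∀ r ∈ rels X, FreeGroup.lift f r = 1 := by
    rintro - ⟨⟨a, b⟩, rfl⟩
    simp only [map_mul, map_inv, FreeGroup.lift_apply_of, mul_inv_eq_iff_eq_mul, one_mul]
    ext w
    simp only [f, Sum.elim_inl, Sum.elim_inr, Equiv.Perm.mul_apply, aff_apply, Units.val_mul,
      map_add, map_sub, ht]
    rw [hs] at s1
    generalize c a = A, c b = B, s⁻¹.1 = S, z⁻¹.1 = Z, z.1 = y at *
    linear_combination ((1 - 2 * y) * S * B - (A + B) + A * (2 - Z)) * s1 +
      (((1 - 2 * y) * S - 1) * (A - B) + A * S) * z1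
  intro h
  have h1 := congrArg (fun g => PresentedGroup.toGroup hf g 0) h
  simp only [map_mul, map_zpow, PresentedGroup.toGroup.of, f, Sum.elim_inl, Sum.elim_inr] at h1
  rw [← map_mul, ← map_zpow, ← map_zpow] at h1
  simp only [Equiv.Perm.mul_apply, aff_apply] at h1
  have h2 := unit_sub z (fun n hn => by
    have := hu (Polynomial.X ^ n - 1) 0 (by simp [hn])
    rwa [map_sub, map_pow, map_one, ← hz] at this) q hq
  have h3 := unit_sub (t * s⁻¹) (fun n hn => by
    have h4 := hu ((1 - 2 * Polynomial.X) ^ n - (1 - Polynomial.X) ^ n) 1 (by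
      norm_num [hn])
    have h5 : (t * s⁻¹).1 ^ n - 1 = (t.1 ^ n - s.1 ^ n) * s⁻¹.1 ^ n := by
      rw [sub_mul, ← mul_pow, ← mul_pow, s1, one_pow, Units.val_mul]
    rw [h5]
    refine IsUnit.mul ?_ ((Units.isUnit _).pow n)
    rwa [map_sub, map_pow, map_pow, map_sub, map_sub, map_one, map_mul, map_ofNat, ← hz, ← hs,
      ← ht] at h4) p hp
  have h4 : c j * s⁻¹.1 - c i * z⁻¹.1 = 0 :=
    h2.mul_right_eq_zero.1 (h3.mul_right_eq_zero.1 (by linear_combination -h1))
  have h5 : φ (C (e j) * Polynomial.X -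
      C (e i) * (1 - Polynomial.X)) = φ 0 := by
    rw [map_sub, map_mul, map_mul, map_sub, map_one, ← hz, ← hs, map_zero]
    change c j * z - c i * s = 0
    linear_combination (z.1 * s.1) * h4 - c j * z * s1 + c i * s * z1
  have h6 := IsFractionRing.injective R[X] K h5
  have h7 : i = 0 := (injective_iff_map_eq_zero e).1 he _ (by simpa using congrArg (eval 0) h6)
  have h8 : j = 0 := (injective_iff_map_eq_zero e).1 he _ (by simpa using congrArg (eval 1) h6)
  exact hij (by rw [h7, h8])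

end Pool.Agent.Results.MP_216313_al.AntiTorus
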